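import Pool.Agent.Work.MP_b5407d_lbm.Interface
import Pool.Agent.Work.MP_3892ce_static.PL1
import Pool.Agent.Work.MP_3892ce_static.PLN

/-! # Block PRK: Prekopa-Leindler for polygons -/

set_option autoImplicit false

open MeasureTheory Set Filter Topology
open scoped ENNReal

namespace Pool.LBM

namespace PRK

variable {ι : Type}

theorem continuous_dt (a : R2) : Continuous (fun x : R2 => dt a x) := by
  unfold dt; fun_prop

theorem continuous_ex (l : R2) : Continuous (ex l) :=
  Real.continuous_exp.comp (continuous_dt l)

theorem isClosed_HP (θ : ι → R2) (h : ι → ℝ) : IsClosed (HP θ h) := by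
  have : HP θ h = ⋂ i, {x | dt (θ i) x ≤ h i} := by
    ext x; simp [HP]
  rw [this]
  exact isClosed_iInter fun i => isClosed_le (continuous_dt (θ i)) continuous_const

/-- the area integral as a lower integral -/
theorem II_eq (θ : ι → R2) (h : ι → ℝ) (l : R2) :
    II θ (ex l) h = (∫⁻ x in HP θ h, ENNReal.ofReal (ex l x)).toReal := by
  unfold II
  rw [integral_eq_lintegral_of_nonneg_ae]
  · exact Filter.Eventually.of_forall fun x => (Real.exp_pos _).le
  · exact (continuous_ex l).aestronglyMeasurable

theorem lint_ne_top (θ : ι → R2) (hθ : Nor θ) (h : ι → ℝ) (l : R2) :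
    ∫⁻ x in HP θ h, ENNReal.ofReal (ex l x) ≠ ⊤ := by
  have hc : IsCompact (HP θ h) :=
    Metric.isCompact_of_isClosed_isBounded (isClosed_HP θ h) (hθ.bdd h)
  have hi : IntegrableOn (ex l) (HP θ h) :=
    (continuous_ex l).continuousOn.integrableOn_compact hc
  exact (hi.lintegral_lt_top).ne

end PRK

open PRK in
theorem blk_PRK : Stmt_PRK := by
  intro ι _ θ l h h' t hθ ht0 ht1
  have hPL := Pool.Agent.Work.MP_3892ce_static.blk_PLN
    Pool.Agent.Work.MP_3892ce_static.blk_PL1
  have h1t : 0 < 1 - t := by linarith
  set h'' : ι → ℝ := fun j => (1 - t) * h j + t * h' j with hh''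
  let e : (Fin 2 → ℝ) ≃ᵐ ℝ × ℝ := MeasurableEquiv.finTwoArrow
  have he : MeasurePreserving e volume volume := volume_preserving_finTwoArrow ℝ
  let F : (ι → ℝ) → R2 → ℝ≥0∞ := fun u => (HP θ u).indicator (fun x => ENNReal.ofReal (ex l x))
  have hFm : ∀ u, Measurable (F u) := fun u =>
    ((continuous_ex l).measurable.ennreal_ofReal).indicator (isClosed_HP θ u).measurableSet
  have hF : ∀ u, ∫⁻ z, F u (e z) = ∫⁻ x in HP θ u, ENNReal.ofReal (ex l x) := by
    intro u
    rw [he.lintegral_comp (hFm u)]
    exact lintegral_indicator (isClosed_HP θ u).measurableSet _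
  have hlin : ∀ z w : Fin 2 → ℝ, e ((1 - t) • z + t • w) = (1 - t) • e z + t • e w := by
    intro z w; rfl
  have key := hPL 2 t ht0 ht1 (fun z => F h (e z)) (fun z => F h' (e z)) (fun z => F h'' (e z))
    ((hFm h).comp e.measurable) ((hFm h').comp e.measurable) ((hFm h'').comp e.measurable)
    (by
      intro z w
      rw [hlin z w]
      by_cases hz : e z ∈ HP θ h
      · by_cases hw : e w ∈ HP θ h'
        · have hzw : (1 - t) • e z + t • e w ∈ HP θ h'' := by
            intro i
            have a1 := hz i
            have a2 := hw i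
            have a3 : dt (θ i) ((1 - t) • e z + t • e w)
                = (1 - t) * dt (θ i) (e z) + t * dt (θ i) (e w) := by
              simp only [dt, Prod.fst_add, Prod.snd_add, Prod.smul_fst, Prod.smul_snd,
                smul_eq_mul]
              ring
            rw [a3]
            exact add_le_add (mul_le_mul_of_nonneg_left a1 h1t.le)
              (mul_le_mul_of_nonneg_left a2 ht0.le)
          simp only [F]
          rw [indicator_of_mem hz, indicator_of_mem hw, indicator_of_mem hzw]
          unfold ex
          rw [ENNReal.ofReal_rpow_of_pos (Real.exp_pos _), ENNReal.ofReal_rpow_of_pos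
            (Real.exp_pos _), ← ENNReal.ofReal_mul (Real.rpow_nonneg (Real.exp_pos _).le _)]
          apply ENNReal.ofReal_le_ofReal
          apply le_of_eq
          rw [← Real.exp_mul, ← Real.exp_mul, ← Real.exp_add]
          congr 1
          simp only [dt, Prod.fst_add, Prod.snd_add, Prod.smul_fst, Prod.smul_snd, smul_eq_mul]
          ring
        · simp only [F]
          rw [indicator_of_notMem hw, ENNReal.zero_rpow_of_pos ht0, mul_zero]
          exact zero_le
      · simp only [F]
        rw [indicator_of_notMem hz, ENNReal.zero_rpow_of_pos h1t, zero_mul]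
        exact zero_le)
  rw [hF, hF, hF] at key
  rw [II_eq, II_eq, II_eq, ENNReal.toReal_rpow, ENNReal.toReal_rpow, ← ENNReal.toReal_mul]
  exact ENNReal.toReal_mono (lint_ne_top θ hθ h'' l) key

end Pool.LBM
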